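import Mathlib
set_option autoImplicit false

/-!
# Interior point methods of any order are not strongly polynomial: definitions and parts
-/

namespace Pool.Agent.W482.IP

open Finset Filter Topology Set

variable {m n : ℕ}

/-- the left hand side of the row `i` of the system `A x ≤ b` at the point `x` -/
def row (A : Fin m → Fin n → ℤ) (x : Fin n → ℝ) (i : Fin m) : ℝ := ∑ j, (A i j : ℝ) * x j

/-- the polyhedron `A x ≤ b` -/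
def poly (A : Fin m → Fin n → ℤ) (b : Fin m → ℤ) : Set (Fin n → ℝ) := {x | ∀ i, row A x i ≤ b i}

/-- the set `A x < b`, the interior of the polyhedron -/
def inner (A : Fin m → Fin n → ℤ) (b : Fin m → ℤ) : Set (Fin n → ℝ) := {x | ∀ i, row A x i < b i}

/-- the objective function `c x`, to be minimised -/
def cost (c : Fin n → ℤ) (x : Fin n → ℝ) : ℝ := ∑ j, (c j : ℝ) * x j

/-- the `k`-th derivative of `F` at `x` in direction `h`, i.e. `D^k F(x)[h, …, h]` -/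
noncomputable def dird (k : ℕ) (F : (Fin n → ℝ) → ℝ) (x h : Fin n → ℝ) : ℝ :=
  iteratedDeriv k (fun τ : ℝ => F (x + τ • h)) 0

/-- `F` is a self-concordant barrier with parameter `ν` of the open set `G` (Nesterov and
Nemirovskii): three times continuously differentiable, `D²F(x)[h,h] > 0`,
`|D³F(x)[h,h,h]| ≤ 2 D²F(x)[h,h]^(3/2)`, `DF(x)[h]² ≤ ν D²F(x)[h,h]`, and `F → ∞` at the
boundary. -/
structure Barrier (ν : ℝ) (G : Set (Fin n → ℝ)) (F : (Fin n → ℝ) → ℝ) : Prop where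
  smooth : ContDiffOn ℝ 3 F G
  pos : ∀ x ∈ G, ∀ h, h ≠ 0 → 0 < dird 2 F x h
  third : ∀ x ∈ G, ∀ h, dird 3 F x h ^ 2 ≤ 4 * dird 2 F x h ^ 3
  param : ∀ x ∈ G, ∀ h, dird 1 F x h ^ 2 ≤ ν * dird 2 F x h
  blowup : ∀ y ∈ frontier G, Tendsto F (𝓝[G] y) atTop

/-- `x` lies in the `θ`-neighbourhood of the central path of `F` for the objective `c`: for some
`η ≥ 0` the local norm of the gradient of `η c + F` at `x` is at most `θ`. -/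
def Near (θ : ℝ) (c : Fin n → ℤ) (F : (Fin n → ℝ) → ℝ) (x : Fin n → ℝ) : Prop :=
  ∃ η : ℝ, 0 ≤ η ∧ ∀ h, |dird 1 F x h + η * cost c h| ≤ θ * √(dird 2 F x h)

/-- `x` is `M`-central: no slack of a point of at most the same cost is more than `M` times the
slack of `x`. -/
def Central (M : ℝ) (A : Fin m → Fin n → ℤ) (b : Fin m → ℤ) (c : Fin n → ℤ)
    (x : Fin n → ℝ) : Prop :=
  ∀ y ∈ inner A b, cost c y ≤ cost c x → ∀ i, b i - row A y i ≤ M * (b i - row A x i)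

/-! ## part LINE -/

/-- **Derivatives along lines.** -/
def LINE : Prop :=
  ∀ {n : ℕ} (G : Set (Fin n → ℝ)) (F : (Fin n → ℝ) → ℝ), IsOpen G → ContDiffOn ℝ 3 F G →
    ∀ (x h : Fin n → ℝ) (τ : ℝ), x + τ • h ∈ G →
      HasDerivAt (fun t : ℝ => F (x + t • h)) (dird 1 F (x + τ • h) h) τ ∧
      HasDerivAt (fun t : ℝ => dird 1 F (x + t • h) h) (dird 2 F (x + τ • h) h) τ ∧
      HasDerivAt (fun t : ℝ => dird 2 F (x + t • h) h) (dird 3 F (x + τ • h) h) τ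

/-! ## part LIP -/

/-- **`1 / √g` is 1-Lipschitz.** -/
def LIP : Prop :=
  ∀ (g g' : ℝ → ℝ) (a b : ℝ), a ≤ b →
    (∀ τ ∈ Icc a b, 0 < g τ ∧ HasDerivAt g (g' τ) τ ∧ g' τ ^ 2 ≤ 4 * g τ ^ 3) →
    |1 / √(g b) - 1 / √(g a)| ≤ b - a

/-! ## part GROW -/

/-- **A bound for the local length of a feasible direction.** -/
def GROW : Prop :=
  ∀ (f g g' : ℝ → ℝ) (ν θ : ℝ), 0 ≤ ν → 0 ≤ θ → θ < 1 →
    (∀ τ ∈ Icc (0 : ℝ) 1, 0 < g τ ∧ HasDerivAt f (g τ) τ ∧ HasDerivAt g (g' τ) τ ∧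
      g' τ ^ 2 ≤ 4 * g τ ^ 3 ∧ f τ ^ 2 ≤ ν * g τ) →
    -(θ * √(g 0)) ≤ f 0 → √(g 0) ≤ 4 * (ν + 1) / (1 - θ)

/-! ## part DIK -/

/-- **The Dikin ellipsoid.** -/
def DIK : Prop :=
  ∀ {n : ℕ} (G : Set (Fin n → ℝ)) (F : (Fin n → ℝ) → ℝ) (ν : ℝ), IsOpen G → Barrier ν G F →
    ∀ x ∈ G, ∀ (h : Fin n → ℝ) (τ : ℝ), |τ| * √(dird 2 F x h) < 1 → x + τ • h ∈ G

/-! ## part CEN -/

/-- **Points near a central path are central.** -/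
def CEN : Prop :=
  ∀ {m n : ℕ} (A : Fin m → Fin n → ℤ) (b : Fin m → ℤ) (c : Fin n → ℤ) (ν θ : ℝ)
    (F : (Fin n → ℝ) → ℝ), 0 ≤ ν → 0 ≤ θ → θ < 1 → Barrier ν (inner A b) F →
    ∀ x ∈ inner A b, Near θ c F x → Central (1 + 8 * (ν + 1) / (1 - θ)) A b c x

/-! ## part TENT -/

/-- the exponents: `(U_0, V_0) = (a, 0)`, `U_(j+1) = min U_j V_j + 2^(r-1-j)`,
`V_(j+1) = max U_j V_j` -/
def UV (r : ℕ) (a : ℤ) : ℕ → ℤ × ℤ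
  | 0 => (a, 0)
  | j + 1 => (min (UV r a j).1 (UV r a j).2 + 2 ^ (r - 1 - j), max (UV r a j).1 (UV r a j).2)

/-- **The exponents alternate.** -/
def TENT : Prop :=
  ∀ (r k : ℕ), 1 ≤ r → k ≤ 2 ^ r →
    (UV r (2 ^ r - 2 * k) r).1 + (UV r (2 ^ r - 2 * k) r).2 = (2 ^ r - 2 * k) + 2 ^ r - 1 ∧
    (UV r (2 ^ r - 2 * k) r).1 - (UV r (2 ^ r - 2 * k) r).2 = (-1) ^ (k + 1)

/-! ## parts LPM, LEV: the linear program -/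

/-- the linear program in terms of `z 0, z 1, ...`; `u_j = z (2 j)`, `v_j = z (2 j + 1)` -/
def Le (r T : ℕ) (z : ℕ → ℝ) : Prop :=
  z 0 ≤ (T : ℝ) ^ (2 ^ r + 1) ∧ z 1 ≤ 1 ∧
  (∀ j < r, z (2 * j + 2) ≤ (T : ℝ) ^ 2 ^ (r - 1 - j) * z (2 * j) ∧
    z (2 * j + 2) ≤ (T : ℝ) ^ 2 ^ (r - 1 - j) * z (2 * j + 1) ∧
    z (2 * j + 3) ≤ z (2 * j) + z (2 * j + 1)) ∧ 0 ≤ z (2 * r) ∧ 0 ≤ z (2 * r + 1)

/-- the same with strict inequalities -/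
def Lt (r T : ℕ) (z : ℕ → ℝ) : Prop :=
  z 0 < (T : ℝ) ^ (2 ^ r + 1) ∧ z 1 < 1 ∧
  (∀ j < r, z (2 * j + 2) < (T : ℝ) ^ 2 ^ (r - 1 - j) * z (2 * j) ∧
    z (2 * j + 2) < (T : ℝ) ^ 2 ^ (r - 1 - j) * z (2 * j + 1) ∧
    z (2 * j + 3) < z (2 * j) + z (2 * j + 1)) ∧ 0 < z (2 * r) ∧ 0 < z (2 * r + 1)

/-- the sequence of the coordinates of `x` -/
noncomputable def ext {N : ℕ} (x : Fin N → ℝ) (i : ℕ) : ℝ := if h : i < N then x ⟨i, h⟩ else 0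

/-- **The linear program in matrix form.** -/
def LPM : Prop :=
  ∀ (r T : ℕ), 1 ≤ T → ∃ (A : Fin (3 * r + 4) → Fin (2 * r + 2) → ℤ) (b : Fin (3 * r + 4) → ℤ)
    (c : Fin (2 * r + 2) → ℤ),
    (∀ i j, |A i j| ≤ (T : ℤ) ^ 2 ^ r) ∧ (∀ i, |b i| ≤ (T : ℤ) ^ (2 ^ r + 1)) ∧
    (∀ j, c j = 0 ∨ c j = 1) ∧ (∀ x, cost c x = ext x 0) ∧
    (∀ x, x ∈ poly A b ↔ Le r T (ext x)) ∧ (∀ x, x ∈ inner A b ↔ Lt r T (ext x)) ∧
    (∃ i, ∀ x, (b i : ℝ) - row A x i = ext x (2 * r)) ∧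
    (1 ≤ r → ∃ i, ∀ x, (b i : ℝ) - row A x i = (T : ℝ) ^ 2 ^ (r - 1) * ext x 0 - ext x 2)

/-- **Bounds.** -/
def BND : Prop :=
  ∀ (r T : ℕ) (z : ℕ → ℝ), 2 ≤ T → Le r T z → ∀ i < 2 * r + 2,
    0 ≤ z i ∧ z i ≤ 2 ^ r * (T : ℝ) ^ 2 ^ (r + 1)

/-- **Upper bounds at the level `T ^ a`.** -/
def LEVU : Prop :=
  ∀ (r T : ℕ) (a : ℤ) (z : ℕ → ℝ), 1 ≤ T → Le r T z → z 0 = (T : ℝ) ^ a →
    z (2 * r) ≤ 2 ^ r * (T : ℝ) ^ (UV r a r).1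

/-- **A point of cost at most `T ^ a`.** -/
def LEVL : Prop :=
  ∀ (r T : ℕ) (a : ℤ), 1 ≤ T → a ≤ 2 ^ r + 1 → ∃ z : ℕ → ℝ, Lt r T z ∧
    z 0 = (T : ℝ) ^ a / 2 ∧ z (2 * r) = (T : ℝ) ^ (UV r a r).1 / 2 ^ (r + 1)

/-! ## part CNT -/

/-- **Counting the sign changes along a piecewise rational curve.** -/
def CNT : Prop :=
  ∀ (N R : ℕ) (T C : ℝ) (d : ℕ → ℕ) (f g : ℝ → ℝ), 1 < T → 1 ≤ R →
    ContinuousOn f (Icc 0 (N : ℝ)) →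
    (∀ k < N, ∃ p q w : Polynomial ℝ, p.natDegree ≤ d k ∧ q.natDegree ≤ d k ∧
      w.natDegree ≤ d k ∧ ∀ s ∈ Icc (k : ℝ) (k + 1), w.eval s ≠ 0 ∧
        f s = p.eval s / w.eval s ∧ g s = q.eval s / w.eval s) →
    T ^ (2 * R : ℤ) ≤ f 0 → f N ≤ T ^ (-2 * R : ℤ) →
    (∀ k : ℕ, k ≤ 2 * R → ∀ s ∈ Icc 0 (N : ℝ), f s = T ^ (2 * R - 2 * k : ℤ) →
      0 < (-1) ^ (k + 1) * (g s ^ 2 - C * f s)) →
    2 * R + 1 ≤ ∑ k ∈ range N, (2 * d k + 1)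

end Pool.Agent.W482.IP
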