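import Pool.Agent.W482.IP.Stm
set_option autoImplicit false

/-!
# Sharpness: a polygonal curve of central points, and the logarithmic barrier
-/

namespace Pool.Agent.W482.IP

open Finset Filter Topology Set

/-- the largest possible values `(û_j, v̂_j)` at the level `lam` -/
noncomputable def hat (r T : ℕ) (lam : ℝ) : ℕ → ℝ × ℝ
  | 0 => (lam, 1)
  | j + 1 => ((T : ℝ) ^ 2 ^ (r - 1 - j) * min (hat r T lam j).1 (hat r T lam j).2,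
      (hat r T lam j).1 + (hat r T lam j).2)

/-- the point `u_j = û_j / 2^(j+1)`, `v_j = v̂_j / 2^(j+1)` -/
noncomputable def Y (r T : ℕ) (lam : ℝ) (i : ℕ) : ℝ :=
  (if i % 2 = 0 then (hat r T lam (i / 2)).1 else (hat r T lam (i / 2)).2) / 2 ^ (i / 2 + 1)

/-- all slacks of `z` are at most `M` times the slacks of `z'` -/
def SlackLe (r T : ℕ) (M : ℝ) (z z' : ℕ → ℝ) : Prop :=
  (T : ℝ) ^ (2 ^ r + 1) - z 0 ≤ M * ((T : ℝ) ^ (2 ^ r + 1) - z' 0) ∧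
  1 - z 1 ≤ M * (1 - z' 1) ∧
  (∀ j < r, (T : ℝ) ^ 2 ^ (r - 1 - j) * z (2 * j) - z (2 * j + 2) ≤
        M * ((T : ℝ) ^ 2 ^ (r - 1 - j) * z' (2 * j) - z' (2 * j + 2)) ∧
      (T : ℝ) ^ 2 ^ (r - 1 - j) * z (2 * j + 1) - z (2 * j + 2) ≤
        M * ((T : ℝ) ^ 2 ^ (r - 1 - j) * z' (2 * j + 1) - z' (2 * j + 2)) ∧
      z (2 * j) + z (2 * j + 1) - z (2 * j + 3) ≤
        M * (z' (2 * j) + z' (2 * j + 1) - z' (2 * j + 3))) ∧
  z (2 * r) ≤ M * z' (2 * r) ∧ z (2 * r + 1) ≤ M * z' (2 * r + 1)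

/-! ## part UPY -/

/-- **The points `Y lam` are interior and central.** -/
def UPY : Prop :=
  ∀ (r T : ℕ) (lam : ℝ), 2 ≤ T → 0 < lam → lam ≤ 2 * (T : ℝ) ^ 2 ^ r →
    Lt r T (Y r T lam) ∧ Y r T lam 0 = lam / 2 ∧
    ∀ z, Le r T z → z 0 ≤ lam / 2 → SlackLe r T (2 ^ (r + 2)) z (Y r T lam)

/-! ## part UPC -/

/-- **The points `Y lam` form a polygonal curve with `2 ^ r` segments.** -/
def UPC : Prop :=
  ∀ (r T : ℕ) (α β : ℝ), α ≤ β → ∃ g : ℝ → ℝ, ContinuousOn g (Icc 0 (2 ^ r : ℝ)) ∧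
    g 0 = β ∧ g (2 ^ r) = α ∧ (∀ s ∈ Icc 0 (2 ^ r : ℝ), g s ∈ Icc α β) ∧
    (∀ i, Continuous fun lam => Y r T lam i) ∧
    ∀ k : ℕ, k < 2 ^ r → ∀ i : ℕ, i < 2 * r + 2 → ∃ a b : ℝ, ∀ s ∈ Icc (k : ℝ) (k + 1),
      Y r T (g s) i = a + b * s

/-! ## part LOGB -/

/-- **The logarithmic barrier is a self-concordant barrier.** -/
def LOGB : Prop :=
  ∀ {m n : ℕ} (A : Fin m → Fin n → ℤ) (b : Fin m → ℤ),
    (∀ h : Fin n → ℝ, (∀ i, row A h i = 0) → h = 0) →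
    Barrier m (inner A b) fun x => -∑ i, Real.log (b i - row A x i)

end Pool.Agent.W482.IP
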