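import Pool.Agent.W482.IP.Main
set_option autoImplicit false

/-!
# Crossing a quadric
-/

namespace Pool.Agent.W482.IP

open Finset Filter Topology Set

/-- successive times of decreasing levels -/
theorem times (f : ℝ → ℝ) (L : ℝ) (hL : 0 ≤ L) (hf : ContinuousOn f (Icc 0 L)) (ℓ : ℕ → ℝ) (n : ℕ)
    (hdec : ∀ k < n, ℓ (k + 1) < ℓ k) (h0 : ℓ 0 ≤ f 0) (hn : f L ≤ ℓ n) :
    ∃ s : ℕ → ℝ, (∀ k ≤ n, s k ∈ Icc 0 L) ∧ (∀ k < n, s k < s (k + 1)) ∧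
      ∀ k ≤ n, f (s k) = ℓ k := by
  have hmono : ∀ d k, k + d = n → ℓ n ≤ ℓ k := by
    intro d
    induction d with
    | zero => rintro k rfl; exact le_rfl
    | succ d ih =>
      intro k hk
      exact (ih (k + 1) (by omega)).trans (hdec k (by omega)).le
  have hstep : ∀ k < n, ∀ t ∈ Icc 0 L, f t = ℓ k → ∃ t' ∈ Icc 0 L, t < t' ∧ f t' = ℓ (k + 1) := by
    intro k hk t ht hft
    have h1 := hdec k hk
    have h2 : ℓ n ≤ ℓ (k + 1) := hmono (n - (k + 1)) (k + 1) (by omega)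
    have hsub : Icc t L ⊆ Icc 0 L := Icc_subset_Icc_left ht.1
    obtain ⟨t', ht', hft'⟩ := intermediate_value_Icc' ht.2 (hf.mono hsub)
      (show ℓ (k + 1) ∈ Icc (f L) (f t) from ⟨hn.trans h2, by rw [hft]; exact h1.le⟩)
    refine ⟨t', hsub ht', lt_of_le_of_ne ht'.1 ?_, hft'⟩
    rintro rfl
    rw [hft] at hft'
    exact h1.ne hft'.symm
  obtain ⟨t0, ht0, hft0⟩ := intermediate_value_Icc' hL hf
    (show ℓ 0 ∈ Icc (f L) (f 0) from ⟨hn.trans (hmono n 0 (by omega)), h0⟩)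
  classical
  choose! g hg1 hg2 hg3 using hstep
  let s : ℕ → ℝ := fun k => Nat.rec t0 (fun k t => g k t) k
  have hs : ∀ k, s (k + 1) = g k (s k) := fun k => rfl
  have key : ∀ k ≤ n, s k ∈ Icc 0 L ∧ f (s k) = ℓ k := by
    intro k
    induction k with
    | zero => exact fun _ => ⟨ht0, hft0⟩
    | succ k ih =>
      intro hk
      obtain ⟨h1, h2⟩ := ih (by omega)
      rw [hs]
      exact ⟨hg1 k (by omega) _ h1 h2, hg3 k (by omega) _ h1 h2⟩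
  refine ⟨s, fun k hk => (key k hk).1, fun k hk => ?_, fun k hk => (key k hk).2⟩
  rw [hs]
  exact hg2 k hk _ (key k hk.le).1 (key k hk.le).2

/-- every curve of good points crosses the quadric `2 ^ r` times -/
theorem cross (hC : CEN) (hT : TENT) (hU : LEVU) (hL : LEVL) {r M T : ℕ} (hr : 1 ≤ r)
    (hM : 1 ≤ M) (hMT : 4 ^ (r + 1) * M ^ 2 < T)
    {A : Fin (3 * r + 4) → Fin (2 * r + 2) → ℤ} {b : Fin (3 * r + 4) → ℤ}
    {c : Fin (2 * r + 2) → ℤ} (hc : ∀ x, cost c x = ext x 0)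
    (hp : ∀ x, x ∈ poly A b ↔ Le r T (ext x)) (hi : ∀ x, x ∈ inner A b ↔ Lt r T (ext x))
    (hrow : ∃ i, ∀ x, (b i : ℝ) - row A x i = ext x (2 * r))
    (L : ℝ) (γ : ℝ → Fin (2 * r + 2) → ℝ) (hL0 : 0 ≤ L) (hγ : ContinuousOn γ (Icc 0 L))
    (hgood : ∀ s ∈ Icc 0 L, γ s ∈ inner A b ∧ Good M A b c (γ s))
    (h0 : (T : ℝ) ^ 2 ^ r ≤ cost c (γ 0)) (hend : cost c (γ L) ≤ 1 / (T : ℝ) ^ 2 ^ r) :
    ∃ s : ℕ → ℝ, (∀ k ≤ 2 ^ r, s k ∈ Icc 0 L) ∧ (∀ k < 2 ^ r, s k < s (k + 1)) ∧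
      ∀ k ≤ 2 ^ r, 0 < (-1) ^ (k + 1) * (γ (s k) ⟨2 * r, by omega⟩ ^ 2 -
        (T : ℝ) ^ (2 ^ r - 1) * cost c (γ (s k))) := by
  have hT1 : 1 < T := by
    have h1 : 1 ≤ 4 ^ (r + 1) * M ^ 2 := Nat.mul_pos (by positivity) (by positivity)
    omega
  have hT1' : (1 : ℝ) < T := by exact_mod_cast hT1
  have hTpos : (0 : ℝ) < T := by linarith
  have hzp : (T : ℝ) ^ (2 ^ r : ℤ) = (T : ℝ) ^ 2 ^ r := by
    exact_mod_cast zpow_natCast (T : ℝ) (2 ^ r)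
  have hcont : ContinuousOn (fun s => cost c (γ s)) (Icc 0 L) := by
    have : (fun s => cost c (γ s)) = fun s => γ s ⟨0, by omega⟩ := by
      funext s
      rw [hc]
      simp [ext]
    rw [this]
    exact (continuous_apply (⟨0, by omega⟩ : Fin (2 * r + 2))).comp_continuousOn hγ
  obtain ⟨s, hs1, hs2, hs3⟩ := times (fun s => cost c (γ s)) L hL0 hcont
    (fun k => (T : ℝ) ^ (2 ^ r - 2 * (k : ℤ))) (2 ^ r) (by
      intro k _
      apply zpow_lt_zpow_right₀ hT1'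
      push_cast
      omega) (by
      simp only [Nat.cast_zero, mul_zero, sub_zero]
      rw [hzp]
      exact h0) (by
      have e : ((2 : ℤ) ^ r - 2 * ((2 ^ r : ℕ) : ℤ)) = -(2 ^ r) := by push_cast; ring
      simp only [e]
      rw [zpow_neg, hzp, inv_eq_one_div]
      exact hend)
  refine ⟨s, hs1, hs2, fun k hk => ?_⟩
  obtain ⟨h1, h2⟩ := hgood (s k) (hs1 k hk)
  have h3 := sign_level hC hT hU hL hr hM hMT hc hp hi hrow h1 h2 hk (hs3 k hk)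
  have h4 : ext (γ (s k)) (2 * r) = γ (s k) ⟨2 * r, by omega⟩ := by simp [ext]
  rw [h4] at h3
  exact h3

end Pool.Agent.W482.IP
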