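import Pool.Agent.W482.IP.Stm
set_option autoImplicit false

/-!
# Interior point methods of any order are not strongly polynomial: assembly
-/

namespace Pool.Agent.W482.IP

open Finset Filter Topology Set

variable {m n : ℕ}

/-- `x` is `M`-central, or lies in the `θ`-neighbourhood of the central path of some
self-concordant barrier `F` of the polyhedron with parameter `ν`,
`1 + 8 (ν + 1) / (1 - θ) ≤ M`. -/
def Good (M : ℝ) (A : Fin m → Fin n → ℤ) (b : Fin m → ℤ) (c : Fin n → ℤ) (x : Fin n → ℝ) : Prop :=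
  Central M A b c x ∨ ∃ (ν θ : ℝ) (F : (Fin n → ℝ) → ℝ), 0 ≤ ν ∧ 0 ≤ θ ∧ θ < 1 ∧
    1 + 8 * (ν + 1) / (1 - θ) ≤ M ∧ Barrier ν (inner A b) F ∧ Near θ c F x

lemma Good.central (hC : CEN) {M : ℝ} {A : Fin m → Fin n → ℤ} {b : Fin m → ℤ} {c : Fin n → ℤ}
    {x : Fin n → ℝ} (hx : x ∈ inner A b) (h : Good M A b c x) : Central M A b c x := by
  rcases h with h | ⟨ν, θ, F, h1, h2, h3, h4, h5, h6⟩
  · exact h
  · intro y hy hc i
    refine (hC A b c ν θ F h1 h2 h3 h5 x hx h6 y hy hc i).trans ?_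
    have : 0 < (b i : ℝ) - row A x i := sub_pos.2 (hx i)
    exact mul_le_mul_of_nonneg_right h4 this.le

lemma ext_of {N : ℕ} (z : ℕ → ℝ) {i : ℕ} (hi : i < N) : ext (fun j : Fin N => z j) i = z i := by
  simp [ext, hi]

lemma Lt_ext {r T : ℕ} {z : ℕ → ℝ} (h : Lt r T z) :
    Lt r T (ext fun j : Fin (2 * r + 2) => z j) := by
  obtain ⟨h0, h1, h2, h3, h4⟩ := h
  refine ⟨?_, ?_, fun j hj => ?_, ?_, ?_⟩
  · rw [ext_of z (by omega)]; exact h0
  · rw [ext_of z (by omega)]; exact h1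
  · rw [ext_of z (by omega), ext_of z (by omega), ext_of z (by omega), ext_of z (by omega)]
    exact h2 j hj
  · rw [ext_of z (by omega)]; exact h3
  · rw [ext_of z (by omega)]; exact h4

/-- the sign of `u_r ^ 2 - T ^ (2 ^ r - 1) u_0` at the levels -/
theorem sign_level (hC : CEN) (hT : TENT) (hU : LEVU) (hL : LEVL) {r M T : ℕ} (hr : 1 ≤ r)
    (hM : 1 ≤ M) (hMT : 4 ^ (r + 1) * M ^ 2 < T)
    {A : Fin (3 * r + 4) → Fin (2 * r + 2) → ℤ} {b : Fin (3 * r + 4) → ℤ}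
    {c : Fin (2 * r + 2) → ℤ} (hc : ∀ x, cost c x = ext x 0)
    (hp : ∀ x, x ∈ poly A b ↔ Le r T (ext x)) (hi : ∀ x, x ∈ inner A b ↔ Lt r T (ext x))
    (hrow : ∃ i, ∀ x, (b i : ℝ) - row A x i = ext x (2 * r))
    {x : Fin (2 * r + 2) → ℝ} (hx : x ∈ inner A b) (hg : Good M A b c x) {k : ℕ}
    (hk : k ≤ 2 ^ r) (hlev : cost c x = (T : ℝ) ^ (2 ^ r - 2 * k : ℤ)) :
    0 < (-1) ^ (k + 1) * (ext x (2 * r) ^ 2 - (T : ℝ) ^ (2 ^ r - 1) * cost c x) := by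
  have hT1 : 1 ≤ T := by omega
  have hTpos : (0 : ℝ) < T := by exact_mod_cast hT1
  have hMT' : (4 : ℝ) ^ (r + 1) * M ^ 2 < T := by exact_mod_cast hMT
  have hM' : (1 : ℝ) ≤ M := by exact_mod_cast hM
  set a : ℤ := 2 ^ r - 2 * k with ha
  obtain ⟨hsum, hdiff⟩ := hT r k hr hk
  rw [← ha] at hsum hdiff
  set U := (UV r a r).1 with hUdef
  set V := (UV r a r).2
  have hpoly : x ∈ poly A b := fun i => (hx i).le
  have hup := hU r T a (ext x) hT1 ((hp x).1 hpoly) (by rw [← hc]; exact hlev)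
  obtain ⟨z, hz, hz0, hzr⟩ := hL r T a hT1 (by
    have : (0 : ℤ) ≤ k := Int.natCast_nonneg k
    omega)
  have hyin : (fun j : Fin (2 * r + 2) => z j) ∈ inner A b := (hi _).2 (Lt_ext hz)
  have hTa : (0 : ℝ) < (T : ℝ) ^ a := zpow_pos hTpos a
  obtain ⟨i, hi'⟩ := hrow
  have hlow := hg.central hC hx _ hyin (by
    rw [hc, ext_of z (by omega), hz0, hlev]
    linarith) i
  rw [hi', hi', ext_of z (by omega), hzr] at hlow
  rw [← hUdef] at hup hlow
  have hTU : (0 : ℝ) < (T : ℝ) ^ U := zpow_pos hTpos U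
  -- `T ^ (2 ^ r - 1) * T ^ a = T ^ (2 U - ε)`
  have hCc : (T : ℝ) ^ (2 ^ r - 1) * cost c x = (T : ℝ) ^ (U + V) := by
    rw [hlev, hsum, ← zpow_natCast (T : ℝ) (2 ^ r - 1), ← zpow_add₀ hTpos.ne']
    congr 1
    have : 1 ≤ 2 ^ r := Nat.one_le_two_pow
    push_cast [Nat.cast_sub this]
    ring
  rw [hCc]
  set u := ext x (2 * r) with hu
  have hupos : 0 < u := by
    have := hx i
    have h2 := hi' x
    rw [← hu] at h2
    linarith
  rcases Nat.even_or_odd k with he | ho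
  · -- `ε = -1`
    have hd : U - V = -1 := by rw [hdiff, pow_succ, he.neg_one_pow]; ring
    have hV : V = U + 1 := by omega
    rw [pow_succ, he.neg_one_pow, hV]
    have h1 : u ^ 2 ≤ (2 ^ r * (T : ℝ) ^ U) ^ 2 := pow_le_pow_left₀ hupos.le hup 2
    have h2 : (2 ^ r * (T : ℝ) ^ U) ^ 2 = 4 ^ r * ((T : ℝ) ^ U) ^ 2 := by
      rw [mul_pow, ← pow_mul, mul_comm r 2, pow_mul]; norm_num
    have h3 : (T : ℝ) ^ (U + (U + 1)) = ((T : ℝ) ^ U) ^ 2 * T := by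
      rw [zpow_add₀ hTpos.ne', zpow_add₀ hTpos.ne', zpow_one]; ring
    have h4 : (4 : ℝ) ^ r < T := by
      have h5 : (4 : ℝ) ^ r ≤ 4 ^ (r + 1) * M ^ 2 := by
        rw [pow_succ]
        have : (0 : ℝ) < 4 ^ r := by positivity
        nlinarith [one_le_pow₀ hM' (n := 2)]
      linarith
    have h6 : 4 ^ r * ((T : ℝ) ^ U) ^ 2 < ((T : ℝ) ^ U) ^ 2 * T := by
      rw [mul_comm]
      exact mul_lt_mul_of_pos_left h4 (by positivity)
    rw [h3]
    rw [h2] at h1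
    linarith
  · -- `ε = 1`
    have hd : U - V = 1 := by rw [hdiff, pow_succ, ho.neg_one_pow]; ring
    have hV : V = U - 1 := by omega
    rw [pow_succ, ho.neg_one_pow, hV]
    have h1 : (T : ℝ) ^ U / 2 ^ (r + 1) / M ≤ u := by
      rw [div_le_iff₀ (by linarith)]
      linarith
    have h2 : ((T : ℝ) ^ U / 2 ^ (r + 1) / M) ^ 2 ≤ u ^ 2 :=
      pow_le_pow_left₀ (by positivity) h1 2
    have h3 : ((T : ℝ) ^ U / 2 ^ (r + 1) / M) ^ 2 = ((T : ℝ) ^ U) ^ 2 / (4 ^ (r + 1) * M ^ 2) := by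
      rw [div_pow, div_pow, ← pow_mul, mul_comm (r + 1) 2, pow_mul, div_div]
      norm_num
    have h4 : (T : ℝ) ^ (U + (U - 1)) = ((T : ℝ) ^ U) ^ 2 / T := by
      rw [zpow_add₀ hTpos.ne', zpow_sub_one₀ hTpos.ne']
      field_simp
    have h5 : ((T : ℝ) ^ U) ^ 2 / T < ((T : ℝ) ^ U) ^ 2 / (4 ^ (r + 1) * M ^ 2) := by
      apply div_lt_div_of_pos_left (by positivity) (by positivity) hMT'
    rw [h4]
    rw [h3] at h2
    linarith

/-- central points for the zero objective have large cost -/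
theorem start_level (hC : CEN) (hL : LEVL) (hB : BND) {r M T : ℕ} (hr : 1 ≤ r)
    (hM : 1 ≤ M) (hMT : 4 ^ (r + 1) * M ^ 2 < T)
    {A : Fin (3 * r + 4) → Fin (2 * r + 2) → ℤ} {b : Fin (3 * r + 4) → ℤ}
    {c : Fin (2 * r + 2) → ℤ} (hc : ∀ x, cost c x = ext x 0)
    (hp : ∀ x, x ∈ poly A b ↔ Le r T (ext x)) (hi : ∀ x, x ∈ inner A b ↔ Lt r T (ext x))
    (hrow : ∃ i, ∀ x, (b i : ℝ) - row A x i = (T : ℝ) ^ 2 ^ (r - 1) * ext x 0 - ext x 2)
    {x : Fin (2 * r + 2) → ℝ} (hx : x ∈ inner A b) (hg : Good M A b 0 x) :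
    (T : ℝ) ^ 2 ^ r ≤ cost c x := by
  have hMT1 : 16 * M ^ 2 < T := by
    have h1 : 4 ^ 2 ≤ 4 ^ (r + 1) := Nat.pow_le_pow_right (by norm_num) (by omega)
    calc 16 * M ^ 2 = 4 ^ 2 * M ^ 2 := by norm_num
      _ ≤ 4 ^ (r + 1) * M ^ 2 := Nat.mul_le_mul_right _ h1
      _ < T := hMT
  have hMM : M ≤ M ^ 2 := Nat.le_self_pow (by norm_num) M
  have hT2 : 2 ≤ T := by nlinarith
  have hTpos : (0 : ℝ) < T := by exact_mod_cast (by omega : 0 < T)
  have hM' : (1 : ℝ) ≤ M := by exact_mod_cast hM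
  have hTM : (16 : ℝ) * M < T := by
    have : 16 * M < T := by omega
    exact_mod_cast this
  obtain ⟨z, hz, hz0, -⟩ := hL r T (2 ^ r + 1) (by omega) le_rfl
  have hyin : (fun j : Fin (2 * r + 2) => z j) ∈ inner A b := (hi _).2 (Lt_ext hz)
  obtain ⟨i, hi'⟩ := hrow
  have hlow := hg.central hC hx _ hyin (by simp [cost]) i
  rw [hi', hi', ext_of z (by omega), ext_of z (by omega), hz0] at hlow
  have hz2 : z 2 < (T : ℝ) ^ 2 ^ (r - 1) * 1 := by
    have h1 := (hz.2.2.1 0 (by omega)).2.1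
    simp only [mul_zero, zero_add, Nat.sub_zero] at h1
    refine h1.trans ?_
    exact mul_lt_mul_of_pos_left hz.2.1 (by positivity)
  have hx2 : 0 ≤ ext x 2 :=
    (hB r T (ext x) hT2 ((hp x).1 fun i => (hx i).le) 2 (by omega)).1
  rw [hc]
  set q : ℝ := (T : ℝ) ^ 2 ^ (r - 1) with hq
  have hqpos : 0 < q := by positivity
  have e1 : (T : ℝ) ^ (2 ^ r + 1 : ℤ) = (T : ℝ) ^ 2 ^ r * T := by
    rw [zpow_add₀ hTpos.ne', zpow_one, show ((2 : ℤ) ^ r) = ((2 ^ r : ℕ) : ℤ) by push_cast; rfl,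
      zpow_natCast]
  rw [e1] at hlow
  set P : ℝ := (T : ℝ) ^ 2 ^ r with hP
  have hP1 : 1 ≤ P := one_le_pow₀ (by linarith)
  have h1 : q * (P * T / 2 - 1) ≤ q * (M * ext x 0) := by nlinarith
  have h2 : P * T / 2 - 1 ≤ M * ext x 0 := le_of_mul_le_mul_left h1 hqpos
  have h3 : M * P ≤ M * ext x 0 := by nlinarith
  exact le_of_mul_le_mul_left h3 (by linarith)

end Pool.Agent.W482.IP
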