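import Pool.Agent.W482.IP.Stm2
import Pool.Agent.W308.IP.LPM
set_option autoImplicit false

/-!
# The matrix form: slacks and injectivity (first part of the proof: helper308)
-/

namespace Pool.Agent.W482.IP

open Finset Pool.Agent.W308.IP

/-- LPM with all slacks -/
theorem lpm2 (r T : ℕ) (hT : 1 ≤ T) :
    ∃ (A : Fin (3 * r + 4) → Fin (2 * r + 2) → ℤ) (b : Fin (3 * r + 4) → ℤ)
      (c : Fin (2 * r + 2) → ℤ),
      (∀ (M : ℝ) x y, (∀ i, (b i : ℝ) - row A y i ≤ M * (b i - row A x i)) ↔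
        SlackLe r T M (Pool.Agent.W482.IP.ext y) (Pool.Agent.W482.IP.ext x)) ∧
      (∀ h : Fin (2 * r + 2) → ℝ, (∀ i, row A h i = 0) → h = 0) ∧
      (∀ i j, |A i j| ≤ (T : ℤ) ^ 2 ^ r) ∧ (∀ i, |b i| ≤ (T : ℤ) ^ (2 ^ r + 1)) ∧
      (∀ j, c j = 0 ∨ c j = 1) ∧ (∀ x, cost c x = Pool.Agent.W482.IP.ext x 0) ∧
      (∀ x, x ∈ poly A b ↔ Le r T (Pool.Agent.W482.IP.ext x)) ∧
      (∀ x, x ∈ inner A b ↔ Lt r T (Pool.Agent.W482.IP.ext x)) ∧
      (∃ i, ∀ x, (b i : ℝ) - row A x i = Pool.Agent.W482.IP.ext x (2 * r)) ∧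
      (1 ≤ r → ∃ i, ∀ x, (b i : ℝ) - row A x i =
        (T : ℝ) ^ 2 ^ (r - 1) * Pool.Agent.W482.IP.ext x 0 - Pool.Agent.W482.IP.ext x 2) := by
  have hT' : (1 : ℤ) ≤ T := by exact_mod_cast hT
  have hrow : ∀ (x : Fin (2 * r + 2) → ℝ) (i : Fin (3 * r + 4)),
      row (fun i j => co r T i j) x i = fn r (T : ℝ) i (Pool.Agent.W482.IP.ext x) :=
    fun x i => row_co r T i x
  have hrhs : ∀ i : ℕ, ((rhs r (T : ℤ) i : ℤ) : ℝ) = rhs r (T : ℝ) i := by
    intro i
    unfold rhs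
    split_ifs <;> push_cast <;> rfl
  have hTpos : (0 : ℝ) < T := by exact_mod_cast (by omega : 0 < T)
  refine ⟨fun i j => co r T i j, fun i => rhs r (T : ℤ) i, fun j => if (j : ℕ) = 0 then 1 else 0,
    ?_, ?_, fun i j => co_le r T i j hT, ?_, ?_, ?_, ?_, ?_, ?_, ?_⟩
  · intro M x y
    have h := all_rows (fun i => rhs r (T : ℝ) i - fn r (T : ℝ) i (Pool.Agent.W482.IP.ext y) ≤
      M * (rhs r (T : ℝ) i - fn r (T : ℝ) i (Pool.Agent.W482.IP.ext x))) r
    have h' : (∀ i : Fin (3 * r + 4), (((rhs r (T : ℤ) i : ℤ) : ℝ)) -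
        row (fun i j => co r T i j) y i ≤ M * (((rhs r (T : ℤ) i : ℤ) : ℝ) -
          row (fun i j => co r T i j) x i)) ↔
        ∀ i : Fin (3 * r + 4), rhs r (T : ℝ) i - fn r (T : ℝ) i (Pool.Agent.W482.IP.ext y) ≤
      M * (rhs r (T : ℝ) i - fn r (T : ℝ) i (Pool.Agent.W482.IP.ext x)) := by
      refine forall_congr' fun i => ?_
      rw [hrow, hrow, hrhs]
    rw [h', h, fn3, fn4, fn5, fn6, fn3, fn4, fn5, fn6, rhs3, rhs4, rhs0' _ (by omega),
      rhs0' _ (by omega)]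
    unfold SlackLe
    constructor
    · rintro ⟨h3, h4, h012, h5, h6⟩
      refine ⟨h3, h4, fun j hj => ?_, by linarith, by linarith⟩
      obtain ⟨g0, g1, g2⟩ := h012 j hj
      rw [fn0 _ _ hj, fn0 _ _ hj, rhs0 _ (by omega)] at g0
      rw [fn1 _ _ hj, fn1 _ _ hj, rhs0 _ (by omega)] at g1
      rw [fn2 _ _ hj, fn2 _ _ hj, rhs0 _ (by omega)] at g2
      exact ⟨by linarith, by linarith, by linarith⟩
    · rintro ⟨h3, h4, h012, h5, h6⟩
      refine ⟨h3, h4, fun j hj => ?_, by linarith, by linarith⟩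
      obtain ⟨g0, g1, g2⟩ := h012 j hj
      rw [fn0 _ _ hj, fn0 _ _ hj, rhs0 _ (by omega), fn1 _ _ hj, fn1 _ _ hj, rhs0 _ (by omega),
        fn2 _ _ hj, fn2 _ _ hj, rhs0 _ (by omega)]
      exact ⟨by linarith, by linarith, by linarith⟩
  · intro x hx
    have h := (all_rows (fun i => fn r (T : ℝ) i (Pool.Agent.W482.IP.ext x) = 0) r).1
      (fun i => by rw [← hrow]; exact hx i)
    rw [fn3, fn4, fn5, fn6] at h
    obtain ⟨h3, h4, h012, h5, h6⟩ := h
    have hz : ∀ j ≤ r, Pool.Agent.W482.IP.ext x (2 * j) = 0 ∧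
        Pool.Agent.W482.IP.ext x (2 * j + 1) = 0 := by
      intro j
      induction j with
      | zero => exact fun _ => ⟨h3, h4⟩
      | succ j ih =>
        intro hj
        obtain ⟨i1, i2⟩ := ih (by omega)
        obtain ⟨g0, g1, g2⟩ := h012 j (by omega)
        rw [fn0 _ _ (by omega), i1] at g0
        rw [fn2 _ _ (by omega), i1, i2] at g2
        refine ⟨?_, ?_⟩
        · have : 2 * (j + 1) = 2 * j + 2 := by ring
          rw [this]
          linarith
        · have : 2 * (j + 1) + 1 = 2 * j + 3 := by ring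
          rw [this]
          linarith
    ext1 i
    have h7 : Pool.Agent.W482.IP.ext x (i : ℕ) = x i := by simp [Pool.Agent.W482.IP.ext]
    rw [← h7]
    obtain ⟨k, hk⟩ := Nat.even_or_odd' (i : ℕ)
    have hi := i.2
    rcases hk with hk | hk
    · rw [hk]; exact (hz k (by omega)).1
    · rw [hk]; exact (hz k (by omega)).2
  · intro i
    have h1 : (1 : ℤ) ≤ (T : ℤ) ^ (2 ^ r + 1) := one_le_pow₀ hT'
    show |rhs r (T : ℤ) i| ≤ _
    unfold rhs
    split_ifs
    · rw [abs_of_nonneg (by positivity)]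
    · rw [abs_one]; exact h1
    · rw [abs_zero]; positivity
  · intro j
    by_cases h : (j : ℕ) = 0
    · right; simp [h]
    · left; simp [h]
  · intro x
    unfold cost
    have := sum_ind x 0
    rw [← this]
    refine sum_congr rfl fun j _ => ?_
    push_cast
    rfl
  · intro x
    have h := all_rows (fun i => fn r (T : ℝ) i (Pool.Agent.W482.IP.ext x) ≤ rhs r (T : ℝ) i) r
    have h' : x ∈ poly (fun i j => co r T i j) (fun i : Fin (3 * r + 4) => rhs r (T : ℤ) i) ↔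
        ∀ i : Fin (3 * r + 4), fn r (T : ℝ) i (Pool.Agent.W482.IP.ext x) ≤ rhs r (T : ℝ) i := by
      constructor
      · intro hx i
        have h1 := hx i
        rw [hrow, hrhs] at h1
        exact h1
      · intro hx i
        rw [hrow, hrhs]
        exact hx i
    rw [h', h, fn3, fn4, fn5, fn6, rhs3, rhs4, rhs0' _ (by omega), rhs0' _ (by omega)]
    unfold Le
    constructor
    · rintro ⟨h3, h4, h012, h5, h6⟩
      refine ⟨h3, h4, fun j hj => ?_, by linarith, by linarith⟩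
      obtain ⟨g0, g1, g2⟩ := h012 j hj
      rw [fn0 _ _ hj, rhs0 _ (by omega)] at g0
      rw [fn1 _ _ hj, rhs0 _ (by omega)] at g1
      rw [fn2 _ _ hj, rhs0 _ (by omega)] at g2
      exact ⟨by linarith, by linarith, by linarith⟩
    · rintro ⟨h3, h4, h012, h5, h6⟩
      refine ⟨h3, h4, fun j hj => ?_, by linarith, by linarith⟩
      obtain ⟨g0, g1, g2⟩ := h012 j hj
      rw [fn0 _ _ hj, rhs0 _ (by omega), fn1 _ _ hj, rhs0 _ (by omega), fn2 _ _ hj,
        rhs0 _ (by omega)]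
      exact ⟨by linarith, by linarith, by linarith⟩
  · intro x
    have h := all_rows (fun i => fn r (T : ℝ) i (Pool.Agent.W482.IP.ext x) < rhs r (T : ℝ) i) r
    have h' : x ∈ inner (fun i j => co r T i j) (fun i : Fin (3 * r + 4) => rhs r (T : ℤ) i) ↔
        ∀ i : Fin (3 * r + 4), fn r (T : ℝ) i (Pool.Agent.W482.IP.ext x) < rhs r (T : ℝ) i := by
      constructor
      · intro hx i
        have h1 := hx i
        rw [hrow, hrhs] at h1
        exact h1
      · intro hx i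
        rw [hrow, hrhs]
        exact hx i
    rw [h', h, fn3, fn4, fn5, fn6, rhs3, rhs4, rhs0' _ (by omega), rhs0' _ (by omega)]
    unfold Pool.Agent.W482.IP.Lt
    constructor
    · rintro ⟨h3, h4, h012, h5, h6⟩
      refine ⟨h3, h4, fun j hj => ?_, by linarith, by linarith⟩
      obtain ⟨g0, g1, g2⟩ := h012 j hj
      rw [fn0 _ _ hj, rhs0 _ (by omega)] at g0
      rw [fn1 _ _ hj, rhs0 _ (by omega)] at g1
      rw [fn2 _ _ hj, rhs0 _ (by omega)] at g2
      exact ⟨by linarith, by linarith, by linarith⟩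
    · rintro ⟨h3, h4, h012, h5, h6⟩
      refine ⟨h3, h4, fun j hj => ?_, by linarith, by linarith⟩
      obtain ⟨g0, g1, g2⟩ := h012 j hj
      rw [fn0 _ _ hj, rhs0 _ (by omega), fn1 _ _ hj, rhs0 _ (by omega), fn2 _ _ hj,
        rhs0 _ (by omega)]
      exact ⟨by linarith, by linarith, by linarith⟩
  · refine ⟨⟨3 * r + 2, by omega⟩, fun x => ?_⟩
    rw [hrow, hrhs]
    show rhs r (T : ℝ) (3 * r + 2) - fn r (T : ℝ) (3 * r + 2) (Pool.Agent.W482.IP.ext x) = _
    rw [fn5, rhs0' _ (by omega)]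
    ring
  · intro hr
    refine ⟨⟨3 * 0, by omega⟩, fun x => ?_⟩
    rw [hrow, hrhs]
    show rhs r (T : ℝ) (3 * 0) - fn r (T : ℝ) (3 * 0) (Pool.Agent.W482.IP.ext x) = _
    rw [fn0 _ _ hr, rhs0 _ (by omega)]
    simp

end Pool.Agent.W482.IP
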