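import Pool.Agent.W482.IP.Cross
import Pool.Agent.W482.IP.Mat
set_option autoImplicit false

/-!
# The polygonal curve
-/

namespace Pool.Agent.W482.IP

open Finset Filter Topology Set

variable {m n : ℕ}

/-- `γ : [0, N] → inner A b` is a continuous curve of good points on which the cost decreases from
at least `K` to at most `1 / K`. -/
def Descends (M K : ℝ) (A : Fin m → Fin n → ℤ) (b : Fin m → ℤ) (c : Fin n → ℤ) (N : ℕ)
    (γ : ℝ → Fin n → ℝ) : Prop :=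
  ContinuousOn γ (Icc 0 (N : ℝ)) ∧ (∀ s ∈ Icc 0 (N : ℝ), γ s ∈ inner A b ∧ Good M A b c (γ s)) ∧
    K ≤ cost c (γ 0) ∧ cost c (γ N) ≤ 1 / K

/-- For `k < N` the coordinates of `γ` on `[k, k + 1]` are rational functions of degree at most
`d k` with a common denominator. -/
def Arcs (N : ℕ) (d : ℕ → ℕ) (γ : ℝ → Fin n → ℝ) : Prop :=
  ∀ k < N, ∃ (p : Fin n → Polynomial ℝ) (w : Polynomial ℝ), (∀ j, (p j).natDegree ≤ d k) ∧
    w.natDegree ≤ d k ∧
      ∀ s ∈ Icc (k : ℝ) (k + 1), w.eval s ≠ 0 ∧ ∀ j, γ s j = (p j).eval s / w.eval s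

lemma SlackLe_ext {r T : ℕ} {M : ℝ} {z z' : ℕ → ℝ} (h : SlackLe r T M z z') :
    SlackLe r T M z (ext fun j : Fin (2 * r + 2) => z' j) := by
  obtain ⟨h0, h1, h2, h3, h4⟩ := h
  refine ⟨?_, ?_, fun j hj => ?_, ?_, ?_⟩
  · rw [ext_of z' (by omega)]; exact h0
  · rw [ext_of z' (by omega)]; exact h1
  · rw [ext_of z' (by omega), ext_of z' (by omega), ext_of z' (by omega), ext_of z' (by omega)]
    exact h2 j hj
  · rw [ext_of z' (by omega)]; exact h3
  · rw [ext_of z' (by omega)]; exact h4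

theorem sharp (hY : UPY) (hZ : UPC) {r T M : ℕ} (hT : 2 ≤ T) (hM : 2 ^ (r + 2) ≤ M)
    {A : Fin (3 * r + 4) → Fin (2 * r + 2) → ℤ} {b : Fin (3 * r + 4) → ℤ}
    {c : Fin (2 * r + 2) → ℤ}
    (hslack : ∀ (M : ℝ) x y, (∀ i, (b i : ℝ) - row A y i ≤ M * (b i - row A x i)) ↔
        SlackLe r T M (ext y) (ext x)) (hc : ∀ x, cost c x = ext x 0)
    (hp : ∀ x, x ∈ poly A b ↔ Le r T (ext x)) (hi : ∀ x, x ∈ inner A b ↔ Lt r T (ext x)) :
    ∃ γ : ℝ → Fin (2 * r + 2) → ℝ, Descends M ((T : ℝ) ^ 2 ^ r) A b c (2 ^ r) γ ∧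
      Arcs (2 ^ r) (fun _ => 1) γ := by
  have hTr : (2 : ℝ) ≤ T := by exact_mod_cast hT
  have hTpos : (0 : ℝ) < T := by linarith
  set K : ℝ := (T : ℝ) ^ 2 ^ r with hK
  have hK1 : 1 ≤ K := one_le_pow₀ (by linarith)
  have hKpos : 0 < K := by linarith
  have hα : 0 < 2 / K := by positivity
  have hαβ : 2 / K ≤ 2 * K := by
    rw [div_le_iff₀ hKpos]
    nlinarith
  obtain ⟨g, hg, hg0, hgN, hgm, hYc, hpc⟩ := hZ r T (2 / K) (2 * K) hαβ
  have hcast : (((2 ^ r : ℕ)) : ℝ) = 2 ^ r := by push_cast; rfl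
  have hγc : ∀ s ∈ Icc 0 (2 ^ r : ℝ), 0 < g s ∧ g s ≤ 2 * K := fun s hs =>
    ⟨hα.trans_le (hgm s hs).1, (hgm s hs).2⟩
  have hcost : ∀ s ∈ Icc 0 (2 ^ r : ℝ), cost c (fun i : Fin (2 * r + 2) => Y r T (g s) i) =
      g s / 2 := by
    intro s hs
    rw [hc, ext_of (Y r T (g s)) (by omega)]
    exact (hY r T (g s) hT (hγc s hs).1 (hγc s hs).2).2.1
  refine ⟨fun s i => Y r T (g s) i, ⟨?_, ?_, ?_, ?_⟩, ?_⟩
  · rw [hcast]
    rw [continuousOn_pi]
    intro i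
    exact (hYc i).comp_continuousOn hg
  · rw [hcast]
    intro s hs
    obtain ⟨h1, h2, h3⟩ := hY r T (g s) hT (hγc s hs).1 (hγc s hs).2
    have hin : (fun i : Fin (2 * r + 2) => Y r T (g s) i) ∈ inner A b := (hi _).2 (Lt_ext h1)
    refine ⟨hin, Or.inl ?_⟩
    intro y hy hcy i
    rw [hcost s hs, hc] at hcy
    have hyp : y ∈ poly A b := fun i => (hy i).le
    have h4 := (hslack (2 ^ (r + 2)) (fun i : Fin (2 * r + 2) => Y r T (g s) i) y).2
      (SlackLe_ext (h3 (ext y) ((hp y).1 hyp) hcy)) i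
    refine h4.trans ?_
    have h5 : 0 < (b i : ℝ) - row A (fun i : Fin (2 * r + 2) => Y r T (g s) i) i :=
      sub_pos.2 (hin i)
    have h6 : (2 : ℝ) ^ (r + 2) ≤ M := by exact_mod_cast hM
    exact mul_le_mul_of_nonneg_right h6 h5.le
  · rw [hcost 0 ⟨le_rfl, by positivity⟩, hg0]
    linarith
  · rw [hcast, hcost (2 ^ r) ⟨by positivity, le_rfl⟩, hgN]
    rw [div_div, div_le_div_iff₀ (by positivity) hKpos]
    linarith
  · intro k hk
    have h1 := hpc k hk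
    choose a b' hab using fun i : Fin (2 * r + 2) => h1 i i.2
    refine ⟨fun j => Polynomial.C (a j) + Polynomial.C (b' j) * Polynomial.X, 1, fun j => ?_, ?_,
      fun s hs => ⟨by simp, fun j => ?_⟩⟩
    · refine (Polynomial.natDegree_add_le _ _).trans (max_le ?_ ?_)
      · simp
      · exact (Polynomial.natDegree_C_mul_le _ _).trans (by simp)
    · simp
    · simp [hab j s hs]

end Pool.Agent.W482.IP
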